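import Mathlib

set_option autoImplicit false

namespace Pool.Agent.Results.MP_69f1cd_co.Full

/-- Arcs of the preference graph of the game with payoffs `u₁, u₂`. -/
def Arc {S T R : Type} [LT R] (u₁ u₂ : S → T → R) (p q : S × T) : Prop :=
  (p.2 = q.2 ∧ p.1 ≠ q.1 ∧ u₁ p.1 p.2 < u₁ q.1 q.2) ∨
    (p.1 = q.1 ∧ p.2 ≠ q.2 ∧ u₂ p.1 p.2 < u₂ q.1 q.2)

def A : Fin 4 → Fin 5 → ℕ := ![![3, 1, 3, 2, 0], ![2, 0, 0, 1, 3], ![0, 2, 1, 3, 1], ![1, 3, 2, 0, 2]]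

def B : Fin 4 → Fin 5 → ℕ := ![![3, 0, 2, 4, 1], ![4, 1, 3, 0, 2], ![2, 4, 1, 3, 0], ![0, 2, 4, 1, 3]]

def f (p : Fin 4 × Fin 5) : Fin 4 × Fin 5 :=
  ![![(0, 0), (0, 0), (0, 0), (2, 3), (0, 0)],
    ![(0, 0), (0, 1), (0, 2), (1, 0), (1, 0)],
    ![(0, 0), (3, 1), (0, 2), (2, 1), (2, 0)],
    ![(0, 0), (3, 2), (0, 2), (3, 2), (3, 2)]] p.1 p.2

def g (p : Fin 4 × Fin 5) : Fin 4 × Fin 5 :=
  ![![(0, 0), (1, 1), (3, 2), (0, 0), (0, 1)],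
    ![(1, 4), (1, 3), (1, 4), (3, 3), (3, 4)],
    ![(2, 2), (2, 3), (1, 2), (0, 3), (0, 4)],
    ![(2, 0), (2, 1), (3, 1), (3, 0), (3, 1)]] p.1 p.2

instance : DecidableRel (Arc A B) := fun _ _ => by unfold Arc; infer_instance

lemma it {α : Type} {R : α → α → Prop} {f : α → α} (h : ∀ p, p = f p ∨ R p (f p)) (p : α) :
    ∀ k, Relation.ReflTransGen R p (f^[k] p)
  | 0 => .refl
  | k + 1 => by
    rw [Function.iterate_succ_apply']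
    exact (h _).elim (fun e => e ▸ it h p k) (it h p k).tail

theorem result : ∃ u₁ u₂ : Fin 4 → Fin 5 → ℝ,
    (∀ s s' t, s ≠ s' → u₁ s t ≠ u₁ s' t) ∧ (∀ s t t', t ≠ t' → u₂ s t ≠ u₂ s t') ∧
    (∀ p q, Relation.ReflTransGen (Arc u₁ u₂) p q) ∧
    ¬ ∃ p q r s, Arc u₁ u₂ p q ∧ Arc u₁ u₂ q r ∧ Arc u₁ u₂ r s ∧ Arc u₁ u₂ s p := by
  have e : Arc (fun s t => (A s t : ℝ)) (fun s t => (B s t : ℝ)) = Arc A B := by
    ext; simp [Arc]
  refine ⟨fun s t => A s t, fun s t => B s t, ?_, ?_, fun p q => ?_, ?_⟩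
  · simp only [Ne, Nat.cast_inj]; decide +kernel
  · simp only [Ne, Nat.cast_inj]; decide +kernel
  · have a := it (R := Arc A B) (f := f) (by decide +kernel) p 9
    have b := it (R := fun x y => Arc A B y x) (f := g) (by decide +kernel) q 16
    rw [(by decide +kernel : ∀ p, f^[9] p = (0, 0))] at a
    rw [(by decide +kernel : ∀ p, g^[16] p = (0, 0))] at b
    exact e ▸ a.trans (Relation.reflTransGen_swap.1 b)
  · rw [e]
    rintro ⟨p, q, r, s, a, b, c, d⟩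
    exact (by decide +kernel : ∀ p q, Arc A B p q → ∀ r, Arc A B q r → ∀ s, Arc A B r s →
      ¬ Arc A B s p) p q a r b s c d

end Pool.Agent.Results.MP_69f1cd_co.Full
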